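import Pool.Agent.H986R3.SOAFinal

set_option autoImplicit false

/-!
The system `Sigma^1_1-AC_0`, its axioms as sentences (universal closures), theories with a
`Pi^1_1` definition, and `Pi^1_1` reflection for such a definition. The language `L_2`, its
structures, provability, `ACA_0`, the Goedel numbering, arithmetizations and the reflection sentence
are those of `Pool/Agent/H986R3/SOADefs.lean`.
-/

namespace Pool.Agent.R601.SelfRef

open Pool.Agent.H986R3.SOA

/-- The axiom of choice for `φ(n, X)`, with `n` the number variable `i` and `X` the set variable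
`j`: if `∀ n ∃ X φ(n, X)` then there is `Y` (the set variable `k`) such that for each `n` the
section `X = {m : (n, m) ∈ Y}` satisfies `φ(n, X)`. -/
def choiceAx (φ : Fm) (i j k m : ℕ) : Fm :=
  .imp (.all i (.exS j φ))
    (.exS k (.all i (.exS j
      (.and (.all m (.iff (.mem (.var m) j) (.mem (prT (.var i) (.var m)) k))) φ))))

/-- The axioms of `Sigma^1_1-AC_0` (free variables being universally quantified): the axioms of
`ACA_0` and the axiom of choice for each `Sigma^1_1` formula. -/
inductive SigmaAC0 : Fm → Prop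
  | aca {φ : Fm} : ACA0 φ → SigmaAC0 φ
  | choice (φ : Fm) (i j k m : ℕ) : φ.IsSigma11 → k ∉ φ.fvS → k ≠ j → m ≠ i →
      SigmaAC0 (choiceAx φ i j k m)

/-- `Closure φ ψ`: the formula `ψ` consists of universal quantifiers followed by `φ`. -/
inductive Closure (φ : Fm) : Fm → Prop
  | refl : Closure φ φ
  | all (i : ℕ) {ψ : Fm} : Closure φ ψ → Closure φ (.all i ψ)
  | allS (i : ℕ) {ψ : Fm} : Closure φ ψ → Closure φ (.allS i ψ)

/-- The set of all sentences which are universal closures of axioms of `Sigma^1_1-AC_0`. -/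
def AxSent : Set Fm := {ψ | ψ.IsSentence ∧ ∃ φ, SigmaAC0 φ ∧ Closure φ ψ}

/-- `T` is a set of sentences that proves all axioms of `Sigma^1_1-AC_0`. -/
def ExtendsSigmaAC0 (T : Set Fm) : Prop :=
  (∀ φ ∈ T, φ.IsSentence) ∧ ∀ φ, SigmaAC0 φ → Proves T φ

/-- The `Pi^1_1` formula `τ(a)` defines (the set of Goedel numbers of the members of) `T` in the
standard model. -/
def Pi11Defines (τ : Fm) (T : Set Fm) : Prop :=
  τ.IsPi11 ∧ τ.FreeIn {0} ∧
    ∀ n : ℕ, SatN n 0 0 τ ↔ ∃ φ ∈ T, φ.code = n

/-- `T` proves its own `Pi^1_1`-soundness, for some `Pi^1_1` definition `τ` of `T`. -/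
def ProvesOwnSoundnessPi (𝒜 : Arithmetization) (T : Set Fm) : Prop :=
  ∃ τ : Fm, Pi11Defines τ T ∧ Proves T (𝒜.reflection τ)

/-- `ax(a)` (with `a` the number variable `0`) is an arithmetical formula that defines, in the
standard model, the set of Goedel numbers of the members of `AxSent`. -/
def DefinesAxioms (ax : Fm) : Prop :=
  ax.Arithmetical ∧ ax.FreeIn {0} ∧ ∀ n : ℕ, SatN n 0 0 ax ↔ ∃ φ ∈ AxSent, φ.code = n

end Pool.Agent.R601.SelfRef
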