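import Pool.Agent.R601.SelfRef.Std

set_option autoImplicit false

/-!
The self-referential `Pi^1_1` definition and the theory `Sigma^1_1-AC_0` + one reflection sentence.
-/

namespace Pool.Agent.R601.SelfRef

open Pool.Agent.H986R3.SOA Function

/-! ### Codes -/

/-- The code of an implication. -/
def cimp (x y : ℕ) : ℕ := pr 3 (pr 4 (pr x (pr 3 y)))

/-- The code of the reflection sentence as a function of the code of `τ`. -/
def crefl (𝒜 : Arithmetization) (t : ℕ) : ℕ :=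
  pr 5 (pr 2 (cimp (pr 4 (pr 𝒜.isPi.code (pr 3 (pr 5 (pr 1 (pr 3 (pr 4 (pr 𝒜.prf.code
    (pr 5 (pr 0 (cimp 𝒜.axIn.code t))))))))))) 𝒜.tr.code))

theorem code_reflection (𝒜 : Arithmetization) (τ : Fm) :
    (𝒜.reflection τ).code = crefl 𝒜 τ.code := rfl

def impT (x y : Tm) : Tm := prT (numeral 3) (prT (numeral 4) (prT x (prT (numeral 3) y)))

def reflT (𝒜 : Arithmetization) (t : Tm) : Tm :=
  prT (numeral 5) (prT (numeral 2) (impT (prT (numeral 4) (prT (numeral 𝒜.isPi.code)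
    (prT (numeral 3) (prT (numeral 5) (prT (numeral 1) (prT (numeral 3) (prT (numeral 4)
      (prT (numeral 𝒜.prf.code) (prT (numeral 5) (prT (numeral 0)
        (impT (numeral 𝒜.axIn.code) t))))))))))) (numeral 𝒜.tr.code)))

theorem tv_reflT (𝒜 : Arithmetization) (v : ℕ → ℕ) (t : Tm) :
    tv v (reflT 𝒜 t) = crefl 𝒜 (tv v t) := by
  simp only [reflT, impT, tv_prT, tv_numeral, crefl, cimp]

theorem tv_gamT (v : ℕ → ℕ) (i : ℕ) (s t : Tm) :
    tv v (gamT i s t) = gam i (tv v s) (tv v t) := by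
  simp only [gamT, tv_prT, tv_numeral, gam]

theorem prT_fv (s t : Tm) : (prT s t).fv = s.fv ∪ t.fv := Tm.fv_prT s t

theorem reflT_fv (𝒜 : Arithmetization) (t : Tm) : (reflT 𝒜 t).fv ⊆ t.fv := by
  intro z hz
  simp only [reflT, impT, prT_fv, numeral_fv, Set.mem_union, Set.mem_empty_iff_false,
    false_or, or_false] at hz
  exact hz

/-! ### The formulas -/

variable (𝒜 : Arithmetization) (ax : Fm) (b i : ℕ) (θ : Fm)

/-- The term for the code of the reflection sentence of `τ`, where `x_3` is the code of the matrix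
of `τ` and `x_4` the code of the numeral of `x_3`. -/
def Cv : Tm := reflT 𝒜 (gamT i (.var 4) (.var 3))

/-- `x_0` is an axiom of `Sigma^1_1-AC_0` or the reflection sentence. -/
def axC : Fm := .or ax (.eq (.var 0) (Cv 𝒜 i))

/-- Provability of `x_2` in the theory defined by `axC`. -/
def prC : Fm := .ex 1 (.and 𝒜.prf (.all 0 (.imp 𝒜.axIn (axC 𝒜 ax i))))

/-- Soundness of this theory for `Pi^1_1` sentences with respect to the matrix `θ` of the truth
predicate, the set being the section of `X_i` at `1`. -/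
def SND : Fm := .all 2 (.imp (.and 𝒜.isPi (prC 𝒜 ax i))
  (.all b (.imp (.eq (.var b) .zero) (θ.sec b i))))

def HT : Fm := .imp (.and (rec0 i) (recS i)) (.all 4 (.imp
  (.mem (prT .zero (prT (.var 3) (.var 4))) i)
  (.or ax (.and (.eq (.var 0) (Cv 𝒜 i)) (SND 𝒜 ax b i θ)))))

/-- The self-referential definition. -/
def tau : Fm := Gam i (HT 𝒜 ax b i θ).code (HT 𝒜 ax b i θ)

/-- The added axiom: the reflection sentence for `tau`. -/
def Cs : Fm := 𝒜.reflection (tau 𝒜 ax b i θ)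

variable {𝒜 ax b i θ}

theorem HT_arith (hax : ax.Arithmetical) (hθ : θ.Arithmetical) :
    (HT 𝒜 ax b i θ).Arithmetical := by
  simp only [HT, SND, prC, axC, rec0, recS, Fm.Arithmetical, Fm.imp, Fm.ex, Fm.or]
  have h1 := 𝒜.prf_arith
  have h2 := 𝒜.axIn_arith
  have h3 := 𝒜.isPi_arith
  have h4 := Fm.sec_arith b i θ hθ
  tauto

theorem Cv_fv : (Cv 𝒜 i).fv ⊆ {3, 4} := by
  intro z hz
  have h1 := reflT_fv 𝒜 _ hz
  have h2 := gamT_fv i _ _ h1
  simp only [Tm.fv, Set.mem_union, Set.mem_singleton_iff] at h2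
  simp only [Set.mem_insert_iff, Set.mem_singleton_iff]
  tauto

theorem axC_fvN (hax : ax.FreeIn {0}) : (axC 𝒜 ax i).fvN ⊆ {0, 3, 4} := by
  intro x hx
  simp only [axC, Fm.fvN, Fm.or, Tm.fv, Set.mem_union, Set.mem_singleton_iff] at hx
  simp only [Set.mem_insert_iff, Set.mem_singleton_iff]
  have h0 : x ∈ ax.fvN → x ∈ ({0} : Set ℕ) := fun h => hax.1 h
  have h6 : x ∈ (Cv 𝒜 i).fv → x ∈ ({3, 4} : Set ℕ) := fun h => Cv_fv h
  simp only [Set.mem_insert_iff, Set.mem_singleton_iff] at h0 h6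
  tauto

theorem prC_fvN (hax : ax.FreeIn {0}) : (prC 𝒜 ax i).fvN ⊆ {2, 3, 4} := by
  intro x hx
  simp only [prC, Fm.fvN, Fm.imp, Fm.ex, Set.mem_union, Set.mem_sdiff,
    Set.mem_singleton_iff] at hx
  simp only [Set.mem_insert_iff, Set.mem_singleton_iff]
  have h1 : x ∈ 𝒜.prf.fvN → x ∈ ({1, 2} : Set ℕ) := fun h => 𝒜.prf_free.1 h
  have h2 : x ∈ 𝒜.axIn.fvN → x ∈ ({0, 1} : Set ℕ) := fun h => 𝒜.axIn_free.1 h
  have h3 : x ∈ (axC 𝒜 ax i).fvN → x ∈ ({0, 3, 4} : Set ℕ) := fun h => axC_fvN hax h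
  simp only [Set.mem_insert_iff, Set.mem_singleton_iff] at h1 h2 h3
  tauto

theorem SND_fvN (hax : ax.FreeIn {0}) (hθ : θ.Arithmetical) (hf : θ.fvN ⊆ {2}) :
    (SND 𝒜 ax b i θ).fvN ⊆ {3, 4} := by
  intro x hx
  simp only [SND, Fm.fvN, Fm.imp, Tm.fv, Set.mem_union, Set.mem_sdiff,
    Set.mem_singleton_iff, Set.mem_empty_iff_false] at hx
  simp only [Set.mem_insert_iff, Set.mem_singleton_iff]
  have h3 : x ∈ (θ.sec b i).fvN → x ∈ θ.fvN ∪ {b} := fun h => Fm.sec_fvN b i θ hθ h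
  have h4 : x ∈ θ.fvN → x ∈ ({2} : Set ℕ) := fun h => hf h
  have h5 : x ∈ 𝒜.isPi.fvN → x ∈ ({2} : Set ℕ) := fun h => 𝒜.isPi_free.1 h
  have h6 : x ∈ (prC 𝒜 ax i).fvN → x ∈ ({2, 3, 4} : Set ℕ) := fun h => prC_fvN hax h
  simp only [Set.mem_union, Set.mem_insert_iff, Set.mem_singleton_iff] at h3 h4 h5 h6
  tauto

theorem HT_fvN (hax : ax.FreeIn {0}) (hθ : θ.Arithmetical) (hf : θ.fvN ⊆ {2}) :
    (HT 𝒜 ax b i θ).fvN ⊆ {0, 3} := by
  intro x hx
  have h0 : x ∈ ax.fvN → x ∈ ({0} : Set ℕ) := fun h => hax.1 h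
  have h6 : x ∈ (Cv 𝒜 i).fv → x ∈ ({3, 4} : Set ℕ) := fun h => Cv_fv h
  have h7 : x ∈ (SND 𝒜 ax b i θ).fvN → x ∈ ({3, 4} : Set ℕ) := fun h => SND_fvN hax hθ hf h
  have h8 : x ∈ (rec0 i).fvN → False := by
    intro h
    simp only [rec0, Fm.fvN, Fm.imp, Tm.fv_prT, Tm.fv, numeral_fv, Set.mem_union, Set.mem_sdiff,
      Set.mem_singleton_iff, Set.mem_empty_iff_false] at h
    tauto
  have h9 : x ∈ (recS i).fvN → False := by
    intro h
    simp only [recS, Fm.fvN, Fm.imp, Fm.ex, Tm.fv_prT, Tm.fv, caddT, numeral_fv, Set.mem_union,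
      Set.mem_sdiff, Set.mem_singleton_iff, Set.mem_empty_iff_false] at h
    tauto
  simp only [HT, Fm.fvN, Fm.imp, Fm.or, Tm.fv_prT, Tm.fv,
    Set.mem_union, Set.mem_sdiff, Set.mem_singleton_iff,
    Set.mem_empty_iff_false] at hx
  simp only [Set.mem_insert_iff, Set.mem_singleton_iff] at h0 h6 h7 ⊢
  tauto

theorem HT_fvS (hax : ax.FreeIn {0}) (hθ : θ.Arithmetical) (hf : θ.fvS ⊆ {i}) :
    (HT 𝒜 ax b i θ).fvS ⊆ {i} := by
  intro x hx
  simp only [HT, SND, prC, axC, rec0, recS, Fm.fvS, Fm.imp, Fm.ex, Fm.or, hax.2, 𝒜.prf_free.2,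
    𝒜.axIn_free.2, 𝒜.isPi_free.2, Set.mem_union, Set.mem_singleton_iff,
    Set.mem_empty_iff_false] at hx
  have h4 : x ∈ (θ.sec b i).fvS → x ∈ ({i} : Set ℕ) := fun h => hf (Fm.sec_fvS b i θ hθ h)
  simp only [Set.mem_singleton_iff] at h4 ⊢
  tauto

theorem tau_pi (hax : ax.Arithmetical) (hθ : θ.Arithmetical) : (tau 𝒜 ax b i θ).IsPi11 :=
  ⟨i, _, rfl, by
    simp only [Fm.Arithmetical, Fm.imp]
    exact ⟨trivial, HT_arith hax hθ⟩⟩

theorem tau_free (hax : ax.FreeIn {0}) (hθ : θ.Arithmetical) (hf : θ.fvN ⊆ {2})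
    (hf' : θ.fvS ⊆ {i}) : (tau 𝒜 ax b i θ).FreeIn {0} := by
  constructor
  · intro x hx
    simp only [tau, Gam, Fm.fvN, Fm.imp, Tm.fv, numeral_fv, Set.mem_union, Set.mem_sdiff,
      Set.mem_singleton_iff, Set.mem_empty_iff_false] at hx
    have h1 : x ∈ (HT 𝒜 ax b i θ).fvN → x ∈ ({0, 3} : Set ℕ) := fun h => HT_fvN hax hθ hf h
    simp only [Set.mem_insert_iff, Set.mem_singleton_iff] at h1
    simp only [Set.mem_singleton_iff]
    tauto
  · refine Set.eq_empty_iff_forall_notMem.mpr fun x hx => ?_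
    simp only [tau, Gam, Fm.fvS, Fm.imp, Set.mem_union, Set.mem_sdiff,
      Set.mem_singleton_iff, Set.mem_empty_iff_false, false_or] at hx
    have h1 : x ∈ (HT 𝒜 ax b i θ).fvS → x ∈ ({i} : Set ℕ) := fun h => HT_fvS hax hθ hf' h
    simp only [Set.mem_singleton_iff] at h1
    tauto

theorem Cs_sentence (h : (tau 𝒜 ax b i θ).FreeIn {0}) : (Cs 𝒜 ax b i θ).IsSentence := by
  constructor
  · refine Set.eq_empty_iff_forall_notMem.mpr fun x hx => ?_
    simp only [Cs, Arithmetization.reflection, Arithmetization.Pr, Fm.fvN, Fm.imp, Fm.ex,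
      Set.mem_union, Set.mem_sdiff, Set.mem_singleton_iff] at hx
    have h1 : x ∈ 𝒜.prf.fvN → x ∈ ({1, 2} : Set ℕ) := fun h => 𝒜.prf_free.1 h
    have h2 : x ∈ 𝒜.axIn.fvN → x ∈ ({0, 1} : Set ℕ) := fun h => 𝒜.axIn_free.1 h
    have h3 : x ∈ 𝒜.isPi.fvN → x ∈ ({2} : Set ℕ) := fun h => 𝒜.isPi_free.1 h
    have h4 : x ∈ 𝒜.tr.fvN → x ∈ ({2} : Set ℕ) := fun h => 𝒜.tr_free.1 h
    have h5 : x ∈ (tau 𝒜 ax b i θ).fvN → x ∈ ({0} : Set ℕ) := fun h' => h.1 h'
    simp only [Set.mem_insert_iff, Set.mem_singleton_iff] at h1 h2 h3 h4 h5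
    tauto
  · simp only [Cs, Arithmetization.reflection, Arithmetization.Pr, Fm.fvS, Fm.imp, Fm.ex, h.2,
      𝒜.prf_free.2, 𝒜.axIn_free.2, 𝒜.isPi_free.2, 𝒜.tr_free.2, Set.union_empty]

/-! ### Truth in the standard model -/

theorem Sat_rec (M : Model) (v : ℕ → M.Num) (V : ℕ → Set M.Num) (i : ℕ) :
    Sat M v V (.and (rec0 i) (recS i)) ↔ M.Rec (V i) := by
  simp only [rec0, recS, Sat, Sat_imp, Sat_ex, val_prT, Tm.val, val_numeral, val_caddT,
    Model.Rec]
  simp [Function.update_apply]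

theorem tv_Cv (v : ℕ → ℕ) : tv v (Cv 𝒜 i) = crefl 𝒜 (gam i (v 4) (v 3)) := by
  rw [Cv, tv_reflT, tv_gamT, tv_var, tv_var]

theorem S_axC (hax : ax.FreeIn {0}) (v : ℕ → ℕ) (V : ℕ → Set ℕ) :
    S v V (axC 𝒜 ax i) ↔ (SatN (v 0) 0 0 ax ∨ v 0 = crefl 𝒜 (gam i (v 4) (v 3))) := by
  rw [axC, S_or, S_eq, tv_var, tv_Cv]
  refine or_congr ?_ Iff.rfl
  exact S_free hax v V _ _ _ (fun _ => rfl) (fun h => by simp at h) (fun j hj h => by
    simp only [Set.mem_singleton_iff] at hj; omega)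

/-- Provability, as expressed by `prC`. -/
def PrSem (𝒜 : Arithmetization) (ax : Fm) (c x : ℕ) : Prop :=
  ∃ p, SatN 0 p x 𝒜.prf ∧ ∀ a, SatN a p 0 𝒜.axIn → (SatN a 0 0 ax ∨ a = c)

theorem S_prC (hax : ax.FreeIn {0}) (v : ℕ → ℕ) (V : ℕ → Set ℕ) :
    S v V (prC 𝒜 ax i) ↔ PrSem 𝒜 ax (crefl 𝒜 (gam i (v 4) (v 3))) (v 2) := by
  rw [prC, S_ex]
  refine exists_congr fun p => ?_
  rw [S_and, S_all]
  refine and_congr ?_ (forall_congr' fun a => ?_)
  · refine S_free 𝒜.prf_free _ _ _ _ _ (fun h => by simp at h) (fun _ => by simp) ?_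
    intro j hj h
    simp only [Set.mem_insert_iff, Set.mem_singleton_iff] at hj
    have : j = 2 := by omega
    subst this
    simp
  · rw [S_imp]
    refine imp_congr ?_ ?_
    · refine S_free 𝒜.axIn_free _ _ _ _ _ (fun _ => by simp) (fun _ => by simp) ?_
      intro j hj h
      simp only [Set.mem_insert_iff, Set.mem_singleton_iff] at hj
      omega
    · rw [S_axC hax]
      simp

/-- Soundness, as expressed by `SND`. -/
def SndSem (𝒜 : Arithmetization) (ax : Fm) (i : ℕ) (θ : Fm) (c : ℕ) (Z : Set ℕ) : Prop :=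
  ∀ x, SatN 0 0 x 𝒜.isPi → PrSem 𝒜 ax c x →
    S (asg 0 0 x) (update (fun _ => ∅) i Z) θ

theorem S_SND (hax : ax.FreeIn {0}) (hθ : θ.Arithmetical) (hf : θ.fvN ⊆ {2})
    (hf' : θ.fvS ⊆ {i}) (hb : θ.bd ≤ b) (hb' : 5 ≤ b) (v : ℕ → ℕ) (V : ℕ → Set ℕ) :
    S v V (SND 𝒜 ax b i θ) ↔
      SndSem 𝒜 ax i θ (crefl 𝒜 (gam i (v 4) (v 3))) {n : ℕ | pr 1 n ∈ V i} := by
  rw [SND, S_all]
  refine forall_congr' fun x => ?_
  rw [S_imp, S_and, and_imp]
  refine imp_congr ?_ (imp_congr ?_ ?_)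
  · refine S_free 𝒜.isPi_free _ _ _ _ _ (fun h => by simp at h) (fun h => by simp at h) ?_
    intro j hj h
    simp only [Set.mem_singleton_iff] at hj
    subst hj
    simp
  · rw [S_prC hax]
    simp
  · simp only [S_all, S_imp, S_eq, tv_var, tv_zero, update_self, forall_eq]
    rw [S_sec b i θ hθ hb]
    refine S_congr ?_ ?_
    · intro j hj
      have := hf hj
      rw [Set.mem_singleton_iff] at this
      subst this
      rw [update_of_ne (by omega : (2 : ℕ) ≠ b), update_self]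
      rfl
    · intro j hj
      have := hf' hj
      rw [Set.mem_singleton_iff] at this
      subst this
      rw [update_self, update_self, update_self]

theorem S_tau (hax : ax.FreeIn {0}) (hθ : θ.Arithmetical) (hf : θ.fvN ⊆ {2})
    (hf' : θ.fvS ⊆ {i}) (hb : θ.bd ≤ b) (hb' : 5 ≤ b) (n : ℕ) :
    SatN n 0 0 (tau 𝒜 ax b i θ) ↔ ∀ W : Set ℕ, std.Rec W →
      ∀ y : ℕ, pr 0 (pr (HT 𝒜 ax b i θ).code y) ∈ W →
        (SatN n 0 0 ax ∨ (n = crefl 𝒜 (gam i y (HT 𝒜 ax b i θ).code) ∧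
          SndSem 𝒜 ax i θ (crefl 𝒜 (gam i y (HT 𝒜 ax b i θ).code)) {n : ℕ | pr 1 n ∈ W})) := by
  have hg : ∀ v V, S v V (HT 𝒜 ax b i θ) ↔ (std.Rec (V i) → ∀ y : ℕ, pr 0 (pr (v 3) y) ∈ V i →
      (SatN (v 0) 0 0 ax ∨ (v 0 = crefl 𝒜 (gam i y (v 3)) ∧
        SndSem 𝒜 ax i θ (crefl 𝒜 (gam i y (v 3))) {n : ℕ | pr 1 n ∈ V i}))) := by
    intro v V
    rw [HT, S_imp]
    refine imp_congr ?_ ?_
    · exact Sat_rec std v V i
    · rw [S_all]
      refine forall_congr' fun y => ?_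
      rw [S_imp, S_or, S_and, S_mem, S_eq, S_SND hax hθ hf hf' hb hb', tv_Cv]
      refine imp_congr ?_ (or_congr ?_ (and_congr ?_ ?_))
      · simp
      · refine S_free hax _ _ _ _ _ (fun _ => by simp) (fun h => by simp at h) ?_
        intro j hj h
        simp only [Set.mem_singleton_iff] at hj
        omega
      · simp
      · simp
  rw [SatN_eq, tau, Gam, S_allS]
  refine forall_congr' fun W => ?_
  simp only [S_all, S_imp, S_eq, tv_var, update_self, tv_numeral, forall_eq]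
  rw [hg]
  simp [asg]

/-! ### The theory -/

variable (𝒜 ax b i θ) in
/-- The theory: `Sigma^1_1-AC_0` and the reflection sentence for `tau`. -/
def TT : Set Fm := AxSent ∪ {Cs 𝒜 ax b i θ}

theorem code_Cs : (Cs 𝒜 ax b i θ).code =
    crefl 𝒜 (gam i (numeral (HT 𝒜 ax b i θ).code).code (HT 𝒜 ax b i θ).code) := by
  rw [Cs, code_reflection, tau, code_Gam]

variable (𝒜 ax b i θ) in
/-- The theory is sound for `Pi^1_1` sentences, as expressed with the truth predicate. -/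
def Snd : Prop := ∀ Z, SndSem 𝒜 ax i θ (Cs 𝒜 ax b i θ).code Z

theorem tau_aux (g c : ℕ) (hc : c = crefl 𝒜 (gam i (numeral g).code g)) (n : ℕ) :
    (∀ W : Set ℕ, std.Rec W → ∀ y : ℕ, pr 0 (pr g y) ∈ W →
        (SatN n 0 0 ax ∨ (n = crefl 𝒜 (gam i y g) ∧
          SndSem 𝒜 ax i θ (crefl 𝒜 (gam i y g)) {n : ℕ | pr 1 n ∈ W}))) ↔
      (SatN n 0 0 ax ∨ (n = c ∧ ∀ Z, SndSem 𝒜 ax i θ c Z)) := by
  constructor
  · intro h
    by_cases hn : SatN n 0 0 ax
    · exact Or.inl hn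
    · have h1 : ∀ Z : Set ℕ, n = c ∧ SndSem 𝒜 ax i θ c Z := by
        intro Z
        have h2 := h (Wit (fun _ => Z)) (by
          rw [std_Rec_iff]
          refine ⟨fun y hy => Wit_num 0 y hy, fun u y hy => ⟨(numeral u).code, Or.inl ⟨u, rfl⟩, ?_⟩⟩
          exact Wit_num (u + 1) y hy) (numeral g).code (Or.inl ⟨g, rfl⟩)
        rw [← hc] at h2
        have h3 : {n | pr 1 n ∈ Wit (fun _ => Z)} = Z := Wit_sec (X := fun _ => Z) 0
        rw [h3] at h2
        exact h2.resolve_left hn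
      exact Or.inr ⟨(h1 ∅).1, fun Z => (h1 Z).2⟩
  · rintro (h | ⟨h1, h2⟩) W hW y hy
    · exact Or.inl h
    · right
      have h3 : y = (numeral g).code := by
        have h4 := rec_unique arith_std hW g y (by
          have e1 : std.num g = g := std_num _
          rw [e1]
          exact hy)
        exact h4.trans (std_num _)
      rw [h3, ← hc]
      exact ⟨h1, h2 _⟩

theorem S_tau' (hax : ax.FreeIn {0}) (hθ : θ.Arithmetical) (hf : θ.fvN ⊆ {2})
    (hf' : θ.fvS ⊆ {i}) (hb : θ.bd ≤ b) (hb' : 5 ≤ b) (n : ℕ) :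
    SatN n 0 0 (tau 𝒜 ax b i θ) ↔
      (SatN n 0 0 ax ∨ (n = (Cs 𝒜 ax b i θ).code ∧ Snd 𝒜 ax b i θ)) :=
  (S_tau hax hθ hf hf' hb hb' n).trans (tau_aux _ _ code_Cs n)

/-- Facts about the truth predicate in the standard model. -/
theorem tr_std {φ : Fm} (h : φ.IsPi11Sentence) : SatN 0 0 φ.code 𝒜.tr ↔ std.Holds φ := by
  have h1 := 𝒜.tr_proves φ h std (fun ψ hψ => std_aca hψ)
  rw [holds_std] at h1
  have h2 := h1 (fun _ => 0) (fun _ => ∅)
  rw [S_iff, Fm.inst, S_all] at h2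
  simp only [S_imp, S_eq, tv_var, update_self, tv_numeral, forall_eq] at h2
  rw [sentence_std h.2] at h2
  rw [← h2]
  refine (S_free 𝒜.tr_free _ _ _ _ _ (fun h => by simp at h) (fun h => by simp at h) ?_).symm
  intro j hj _
  simp only [Set.mem_singleton_iff] at hj
  subst hj
  simp

/-- The truth of the reflection sentence for a formula `τ` that defines, in the standard model, a
set `T` of true sentences. -/
theorem reflection_true {τ : Fm} (hτ : τ.FreeIn {0}) {T : Set Fm}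
    (hT : ∀ ψ ∈ T, ψ.IsSentence) (hT' : ∀ ψ ∈ T, std.Holds ψ)
    (h : ∀ n : ℕ, SatN n 0 0 τ → ∃ φ ∈ T, φ.code = n) : std.Holds (𝒜.reflection τ) := by
  rw [holds_std]
  intro v V
  rw [Arithmetization.reflection, S_all]
  intro x
  rw [S_imp, S_and, Arithmetization.Pr, S_ex]
  rintro ⟨h1, p, h2⟩
  rw [S_and, S_all] at h2
  obtain ⟨h2, h3⟩ := h2
  have h4 : SatN 0 0 x 𝒜.isPi := by
    refine (S_free 𝒜.isPi_free _ _ _ _ _ (fun h => by simp at h) (fun h => by simp at h) ?_).1 h1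
    intro j hj _
    simp only [Set.mem_singleton_iff] at hj
    subst hj
    simp
  obtain ⟨φ, hφ, rfl⟩ := (𝒜.isPi_std x).1 h4
  have h5 : Proves T φ := by
    rw [𝒜.prf_correct T hT φ hφ.2]
    refine ⟨p, ?_, fun a ha => ?_⟩
    · refine (S_free 𝒜.prf_free _ _ _ _ _ (fun h => by simp at h) (fun _ => by simp) ?_).1 h2
      intro j hj h
      simp only [Set.mem_insert_iff, Set.mem_singleton_iff] at hj
      have : j = 2 := by omega
      subst this
      simp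
    · apply h
      have h6 := h3 a
      rw [S_imp] at h6
      refine (S_free hτ _ _ _ _ _ (fun _ => by simp) (fun h => by simp at h) ?_).1 (h6 ?_)
      · intro j hj h
        simp only [Set.mem_singleton_iff] at hj
        omega
      · refine (S_free 𝒜.axIn_free _ _ _ _ _ (fun _ => by simp) (fun _ => by simp) ?_).2 ha
        intro j hj h
        simp only [Set.mem_insert_iff, Set.mem_singleton_iff] at hj
        omega
  have h6 : std.Holds φ := h5 std hT'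
  refine (S_free 𝒜.tr_free _ _ _ _ _ (fun h => by simp at h) (fun h => by simp at h) ?_).2
    ((tr_std hφ).2 h6)
  intro j hj _
  simp only [Set.mem_singleton_iff] at hj
  subst hj
  simp

/-- The main theorem. -/
theorem main (𝒜 : Arithmetization) (ax : Fm) (hax : DefinesAxioms ax) :
    ∃ σ : Fm, σ.IsSentence ∧ std.Holds σ ∧ ExtendsSigmaAC0 (AxSent ∪ {σ}) ∧
      Pi11Sound (AxSent ∪ {σ}) ∧
        ∃ τ : Fm, Pi11Defines τ (AxSent ∪ {σ}) ∧ σ = 𝒜.reflection τ := by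
  obtain ⟨hax1, hax2, hax3⟩ := hax
  obtain ⟨i, θ, hi, hθ⟩ := 𝒜.tr_pi
  have hf : θ.fvN ⊆ {2} := by
    have := 𝒜.tr_free.1
    rw [hi] at this
    exact this
  have hf' : θ.fvS ⊆ {i} := by
    have h2 : θ.fvS \ {i} = ∅ := by
      have := 𝒜.tr_free.2
      rw [hi] at this
      exact this
    intro x hx
    by_contra hne
    have : x ∈ θ.fvS \ {i} := ⟨hx, hne⟩
    rw [h2] at this
    exact this
  obtain ⟨b, hb, hb'⟩ : ∃ b, θ.bd ≤ b ∧ 5 ≤ b := ⟨max θ.bd 5, le_max_left _ _, le_max_right _ _⟩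
  have hτf : (tau 𝒜 ax b i θ).FreeIn {0} := tau_free hax2 hθ hf hf'
  have hCs : (Cs 𝒜 ax b i θ).IsSentence := Cs_sentence hτf
  have hsent : ∀ φ ∈ AxSent ∪ {Cs 𝒜 ax b i θ}, φ.IsSentence := by
    rintro φ (h | h)
    · exact h.1
    · rw [Set.mem_singleton_iff.1 h]
      exact hCs
  have hPr : ∀ φ : Fm, φ.IsSentence → (PrSem 𝒜 ax (Cs 𝒜 ax b i θ).code φ.code ↔
      Proves (AxSent ∪ {Cs 𝒜 ax b i θ}) φ) := by
    intro φ hφ
    rw [𝒜.prf_correct _ hsent φ hφ]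
    refine exists_congr fun p => and_congr_right fun _ => forall_congr' fun a =>
      imp_congr_right fun _ => ?_
    rw [hax3]
    constructor
    · rintro (⟨ψ, h1, h2⟩ | h)
      · exact ⟨ψ, Or.inl h1, h2⟩
      · exact ⟨_, Or.inr rfl, h.symm⟩
    · rintro ⟨ψ, h1 | h1, h2⟩
      · exact Or.inl ⟨ψ, h1, h2⟩
      · rw [Set.mem_singleton_iff.1 h1] at h2
        exact Or.inr h2.symm
  -- truth of the `Pi^1_1` sentences in terms of the matrix of the truth predicate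
  have htr : ∀ φ : Fm, φ.IsPi11Sentence →
      (std.Holds φ ↔ ∀ Z : Set ℕ, S (asg 0 0 φ.code) (update (fun _ => ∅) i Z) θ) := by
    intro φ hφ
    rw [← tr_std (𝒜 := 𝒜) hφ, SatN_eq, hi, S_allS]
  have hSnd : Snd 𝒜 ax b i θ ↔ Pi11Sound (AxSent ∪ {Cs 𝒜 ax b i θ}) := by
    constructor
    · intro h φ hφ hp
      rw [htr φ hφ]
      intro Z
      exact h Z φ.code ((𝒜.isPi_std _).2 ⟨φ, hφ, rfl⟩) ((hPr φ hφ.2).2 hp)
    · intro h Z x hx hp
      obtain ⟨φ, hφ, rfl⟩ := (𝒜.isPi_std x).1 hx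
      exact (htr φ hφ).1 (h φ hφ ((hPr φ hφ.2).1 hp)) Z
  have htau := fun n => S_tau' (𝒜 := 𝒜) hax2 hθ hf hf' hb hb' n
  -- the theory is sound
  have hsound : Snd 𝒜 ax b i θ := by
    by_contra hno
    apply hno
    rw [hSnd]
    have hCt : std.Holds (Cs 𝒜 ax b i θ) := by
      refine reflection_true hτf (T := AxSent) (fun ψ h => h.1) (fun ψ h => std_axSent h) ?_
      intro n hn
      rcases (htau n).1 hn with h | h
      · exact (hax3 n).1 h
      · exact absurd h.2 hno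
    intro φ _ hp
    refine hp std ?_
    rintro ψ (h | h)
    · exact std_axSent h
    · rw [Set.mem_singleton_iff.1 h]
      exact hCt
  have hdef : Pi11Defines (tau 𝒜 ax b i θ) (AxSent ∪ {Cs 𝒜 ax b i θ}) := by
    refine ⟨tau_pi hax1 hθ, hτf, fun n => ?_⟩
    rw [htau n, hax3]
    constructor
    · rintro (⟨ψ, h1, h2⟩ | h)
      · exact ⟨ψ, Or.inl h1, h2⟩
      · exact ⟨_, Or.inr rfl, h.1.symm⟩
    · rintro ⟨ψ, h1 | h1, h2⟩
      · exact Or.inl ⟨ψ, h1, h2⟩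
      · rw [Set.mem_singleton_iff.1 h1] at h2
        exact Or.inr ⟨h2.symm, hsound⟩
  have hPiS := hSnd.1 hsound
  refine ⟨Cs 𝒜 ax b i θ, hCs, ?_, extends_of_subset hsent Set.subset_union_left, hPiS,
    tau 𝒜 ax b i θ, hdef, rfl⟩
  -- the new axiom is true
  rw [holds_std]
  intro v V
  rw [Cs, Arithmetization.reflection, S_all]
  intro x
  rw [S_imp, S_and, Arithmetization.Pr, S_ex]
  rintro ⟨h1, p, h2⟩
  rw [S_and, S_all] at h2
  obtain ⟨h2, h3⟩ := h2
  have h4 : SatN 0 0 x 𝒜.isPi := by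
    refine (S_free 𝒜.isPi_free _ _ _ _ _ (fun h => by simp at h) (fun h => by simp at h) ?_).1 h1
    intro j hj _
    simp only [Set.mem_singleton_iff] at hj
    subst hj
    simp
  obtain ⟨φ, hφ, rfl⟩ := (𝒜.isPi_std x).1 h4
  have h5 : Proves (AxSent ∪ {Cs 𝒜 ax b i θ}) φ := by
    rw [𝒜.prf_correct _ hsent φ hφ.2]
    refine ⟨p, ?_, fun a ha => ?_⟩
    · refine (S_free 𝒜.prf_free _ _ _ _ _ (fun h => by simp at h) (fun _ => by simp) ?_).1 h2
      intro j hj h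
      simp only [Set.mem_insert_iff, Set.mem_singleton_iff] at hj
      have : j = 2 := by omega
      subst this
      simp
    · apply (hdef.2.2 a).1
      have h6 := h3 a
      rw [S_imp] at h6
      refine (S_free hτf _ _ _ _ _ (fun _ => by simp) (fun h => by simp at h) ?_).1 (h6 ?_)
      · intro j hj h
        simp only [Set.mem_singleton_iff] at hj
        omega
      · refine (S_free 𝒜.axIn_free _ _ _ _ _ (fun _ => by simp) (fun _ => by simp) ?_).2 ha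
        intro j hj h
        simp only [Set.mem_insert_iff, Set.mem_singleton_iff] at hj
        omega
  refine (S_free 𝒜.tr_free _ _ _ _ _ (fun h => by simp at h) (fun h => by simp at h) ?_).2
    ((tr_std hφ).2 (hPiS φ hφ h5))
  intro j hj _
  simp only [Set.mem_singleton_iff] at hj
  subst hj
  simp

end Pool.Agent.R601.SelfRef
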