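import Pool.Agent.R601.SelfRef.Defs

set_option autoImplicit false

/-!
Satisfaction in the standard model, with the number domain displayed as the natural numbers.
-/

namespace Pool.Agent.R601.SelfRef

open Pool.Agent.H986R3.SOA Function

/-- Satisfaction in the standard model. -/
def S (v : ℕ → ℕ) (V : ℕ → Set ℕ) (φ : Fm) : Prop := Sat std v V φ

/-- Values of terms in the standard model. -/
def tv (v : ℕ → ℕ) (t : Tm) : ℕ := t.val std v

section
variable (v : ℕ → ℕ) (V : ℕ → Set ℕ) (φ ψ : Fm) (s t : Tm) (i j : ℕ)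

@[simp] theorem tv_var : tv v (.var i) = v i := rfl
@[simp] theorem tv_zero : tv v .zero = 0 := rfl
@[simp] theorem tv_one : tv v .one = 1 := rfl
@[simp] theorem tv_add : tv v (.add s t) = tv v s + tv v t := rfl
@[simp] theorem tv_mul : tv v (.mul s t) = tv v s * tv v t := rfl
@[simp] theorem tv_prT : tv v (prT s t) = pr (tv v s) (tv v t) := rfl
@[simp] theorem tv_numeral (n : ℕ) : tv v (numeral n) = n :=
  (val_numeral std v n).trans (std_num n)

@[simp] theorem S_eq : S v V (.eq s t) ↔ tv v s = tv v t := Iff.rfl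
@[simp] theorem S_lt : S v V (.lt s t) ↔ tv v s < tv v t := Iff.rfl
@[simp] theorem S_mem : S v V (.mem t i) ↔ tv v t ∈ V i := Iff.rfl
@[simp] theorem S_neg : S v V (.neg φ) ↔ ¬ S v V φ := Iff.rfl
@[simp] theorem S_and : S v V (.and φ ψ) ↔ (S v V φ ∧ S v V ψ) := Iff.rfl
@[simp] theorem S_all : S v V (.all i φ) ↔ ∀ a : ℕ, S (update v i a) V φ := Iff.rfl
@[simp] theorem S_allS : S v V (.allS i φ) ↔ ∀ A : Set ℕ, S v (update V i A) φ :=
  ⟨fun h A => h A trivial, fun h A _ => h A⟩
@[simp] theorem S_imp : S v V (φ.imp ψ) ↔ (S v V φ → S v V ψ) := Sat_imp std v V φ ψ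
@[simp] theorem S_iff : S v V (φ.iff ψ) ↔ (S v V φ ↔ S v V ψ) := Sat_iff std v V φ ψ
@[simp] theorem S_or : S v V (φ.or ψ) ↔ (S v V φ ∨ S v V ψ) := Sat_or std v V φ ψ
@[simp] theorem S_ex : S v V (φ.ex i) ↔ ∃ a : ℕ, S (update v i a) V φ := Sat_ex std v V i φ
@[simp] theorem S_exS : S v V (φ.exS i) ↔ ∃ A : Set ℕ, S v (update V i A) φ :=
  (Sat_exS std v V i φ).trans
    ⟨fun ⟨A, _, h⟩ => ⟨A, h⟩, fun ⟨A, h⟩ => ⟨A, trivial, h⟩⟩

end

theorem S_congr {φ : Fm} {v v' : ℕ → ℕ} {V V' : ℕ → Set ℕ}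
    (h : ∀ i ∈ φ.fvN, v i = v' i) (h' : ∀ i ∈ φ.fvS, V i = V' i) : S v V φ ↔ S v' V' φ :=
  Sat_congr std φ v v' V V' h h'

theorem S_sec (b i : ℕ) (θ : Fm) (hθ : θ.Arithmetical) (hb : θ.bd ≤ b) (v : ℕ → ℕ)
    (V : ℕ → Set ℕ) : S v V (θ.sec b i) ↔ S v (update V i {n | pr (v b + 1) n ∈ V i}) θ :=
  Sat_sec std b i θ hθ hb v V

theorem holds_std {φ : Fm} : std.Holds φ ↔ ∀ (v : ℕ → ℕ) (V : ℕ → Set ℕ), S v V φ :=
  ⟨fun h v V => h v V (fun _ => trivial), fun h v V _ => h v V⟩

/-- Assignments with given values of the variables `0`, `1` and `2, 3, …`. -/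
theorem SatN_eq (a p x : ℕ) (φ : Fm) : SatN a p x φ ↔ S (asg a p x) (fun _ => ∅) φ := Iff.rfl

theorem S_free {φ : Fm} {s : Set ℕ} (h : φ.FreeIn s) (v : ℕ → ℕ) (V : ℕ → Set ℕ)
    (a p x : ℕ) (h0 : 0 ∈ s → v 0 = a) (h1 : 1 ∈ s → v 1 = p) (h2 : ∀ j ∈ s, 2 ≤ j → v j = x) :
    S v V φ ↔ SatN a p x φ := by
  refine Sat_free_asg std h _ _ _ _ ?_
  intro j hj
  match j, hj with
  | 0, hj => exact h0 hj
  | 1, hj => exact h1 hj
  | j + 2, hj => exact h2 _ hj (by omega)

theorem sentence_std {φ : Fm} (h : φ.IsSentence) (v : ℕ → ℕ) (V : ℕ → Set ℕ) :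
    S v V φ ↔ std.Holds φ := by
  rw [holds_std]
  constructor
  · intro h1 v' V'
    refine (S_congr ?_ ?_).1 h1
    · intro i hi; rw [h.1] at hi; exact absurd hi (by simp)
    · intro i hi; rw [h.2] at hi; exact absurd hi (by simp)
  · intro h1
    exact h1 v V

/-! ### The standard model satisfies the axioms -/

theorem std_aca {φ : Fm} (h : ACA0 φ) : std.Holds φ := by
  rw [holds_std]
  intro v V
  cases h with
  | succ_ne_zero => simp
  | succ_inj => simp
  | add_zero => simp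
  | add_succ => simp [add_assoc]
  | mul_zero => simp
  | mul_succ => simp [mul_add]
  | not_lt_zero => simp
  | lt_succ => simp; omega
  | induction =>
    simp only [S_imp, S_and, S_mem, S_all, tv_zero, tv_var, update_self, tv_add, tv_one]
    rintro ⟨h0, hs⟩ a
    induction a with
    | zero => exact h0
    | succ n ih => exact hs n ih
  | comprehension φ i j hφ hj =>
    simp only [S_exS, S_all, S_iff, S_mem, tv_var, update_self]
    refine ⟨{a | S (update v i a) V φ}, fun a => ?_⟩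
    have h1 : S (update v i a) (update V j {a | S (update v i a) V φ}) φ ↔ S (update v i a) V φ :=
      S_congr (fun _ _ => rfl) (fun k hk => by
        rw [update_of_ne]
        rintro rfl
        exact hj hk)
    rw [h1]
    rfl

theorem std_choice {φ : Fm} (h : SigmaAC0 φ) : std.Holds φ := by
  cases h with
  | aca h => exact std_aca h
  | choice φ i j k m _ hk hkj hmi =>
    rw [holds_std]
    intro v V
    simp only [choiceAx, S_imp, S_all, S_exS, S_and, S_iff, S_mem, tv_var, tv_prT]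
    intro h
    choose X hX using h
    refine ⟨{x | ∃ n y, x = pr n y ∧ y ∈ X n}, fun n => ⟨X n, ?_, ?_⟩⟩
    · intro y
      rw [update_self, update_self, update_of_ne hkj, update_self, update_of_ne hmi.symm,
        update_self]
      constructor
      · intro h1
        exact ⟨n, y, rfl, h1⟩
      · rintro ⟨n', y', h1, h2⟩
        obtain ⟨rfl, rfl⟩ := pr_inj h1
        exact h2
    · refine (S_congr (fun _ _ => rfl) (fun l hl => ?_)).1 (hX n)
      by_cases hlj : l = j
      · subst hlj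
        rw [update_self, update_self]
      · rw [update_of_ne hlj, update_of_ne hlj, update_of_ne]
        rintro rfl
        exact hk hl

theorem holds_all {M : Model} {φ : Fm} (i : ℕ) : M.Holds (.all i φ) ↔ M.Holds φ := by
  constructor
  · intro h v V hV
    have := h v V hV (v i)
    rwa [update_eq_self] at this
  · intro h v V hV a
    exact h _ V hV

theorem holds_allS {M : Model} {φ : Fm} (i : ℕ) : M.Holds (.allS i φ) ↔ M.Holds φ := by
  constructor
  · intro h v V hV
    have := h v V hV (V i) (hV i)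
    rwa [update_eq_self] at this
  · intro h v V hV A hA
    refine h v _ (fun j => ?_)
    by_cases hj : j = i
    · subst hj
      rw [update_self]
      exact hA
    · rw [update_of_ne hj]
      exact hV j

theorem closure_holds {M : Model} {φ ψ : Fm} (h : Closure φ ψ) : M.Holds ψ ↔ M.Holds φ := by
  induction h with
  | refl => exact Iff.rfl
  | all i _ ih => rw [holds_all, ih]
  | allS i _ ih => rw [holds_allS, ih]

theorem std_axSent {φ : Fm} (h : φ ∈ AxSent) : std.Holds φ := by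
  obtain ⟨_, ψ, h1, h2⟩ := h
  rw [closure_holds h2]
  exact std_choice h1

/-! ### Every formula has a closure -/

theorem tm_fv_lt {t : Tm} : ∀ i ∈ t.fv, i < t.bd := by
  induction t with
  | var i => intro j hj; simp only [Tm.fv, Set.mem_singleton_iff] at hj; simp [Tm.bd, hj]
  | zero => intro j hj; simp [Tm.fv] at hj
  | one => intro j hj; simp [Tm.fv] at hj
  | add s t hs ht =>
    intro j hj
    rcases hj with hj | hj
    · exact lt_of_lt_of_le (hs j hj) (le_max_left _ _)
    · exact lt_of_lt_of_le (ht j hj) (le_max_right _ _)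
  | mul s t hs ht =>
    intro j hj
    rcases hj with hj | hj
    · exact lt_of_lt_of_le (hs j hj) (le_max_left _ _)
    · exact lt_of_lt_of_le (ht j hj) (le_max_right _ _)

theorem fm_fvN_lt {φ : Fm} : ∀ i ∈ φ.fvN, i < φ.bd := by
  induction φ with
  | eq s t =>
    intro j hj
    rcases hj with hj | hj
    · exact lt_of_lt_of_le (tm_fv_lt j hj) (le_max_left _ _)
    · exact lt_of_lt_of_le (tm_fv_lt j hj) (le_max_right _ _)
  | lt s t =>
    intro j hj
    rcases hj with hj | hj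
    · exact lt_of_lt_of_le (tm_fv_lt j hj) (le_max_left _ _)
    · exact lt_of_lt_of_le (tm_fv_lt j hj) (le_max_right _ _)
  | mem t i => intro j hj; exact tm_fv_lt j hj
  | neg φ ih => exact ih
  | and φ ψ h1 h2 =>
    intro j hj
    rcases hj with hj | hj
    · exact lt_of_lt_of_le (h1 j hj) (le_max_left _ _)
    · exact lt_of_lt_of_le (h2 j hj) (le_max_right _ _)
  | all i φ ih =>
    intro j hj
    exact lt_of_lt_of_le (ih j hj.1) (le_max_right _ _)
  | allS i φ ih => intro j hj; exact ih j hj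

theorem fm_fvS_fin (φ : Fm) : φ.fvS.Finite := by
  induction φ with
  | eq s t => exact Set.finite_empty
  | lt s t => exact Set.finite_empty
  | mem t i => exact Set.finite_singleton i
  | neg φ ih => exact ih
  | and φ ψ h1 h2 => exact h1.union h2
  | all i φ ih => exact ih
  | allS i φ ih => exact ih.sdiff

theorem exists_closure (φ : Fm) : ∃ ψ, Closure φ ψ ∧ ψ.IsSentence := by
  have h1 : ∀ n, ∃ ψ, Closure φ ψ ∧ (∀ i ∈ ψ.fvN, i ∈ φ.fvN ∧ n ≤ i) := by
    intro n
    induction n with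
    | zero => exact ⟨φ, .refl, fun i hi => ⟨hi, Nat.zero_le _⟩⟩
    | succ n ih =>
      obtain ⟨ψ, h1, h2⟩ := ih
      refine ⟨.all n ψ, .all n h1, fun i hi => ?_⟩
      have h3 := h2 i hi.1
      have h4 : i ≠ n := hi.2
      exact ⟨h3.1, by omega⟩
  obtain ⟨ψ, h2, h3⟩ := h1 φ.bd
  have h4 : ψ.fvN = ∅ := Set.eq_empty_iff_forall_notMem.mpr fun i hi => by
    have h5 := h3 i hi
    have h6 := fm_fvN_lt i h5.1
    omega
  obtain ⟨B, hB⟩ := (fm_fvS_fin ψ).bddAbove
  have h5 : ∀ n, ∃ χ, Closure φ χ ∧ χ.fvN = ∅ ∧ (∀ i ∈ χ.fvS, i ∈ ψ.fvS ∧ n ≤ i) := by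
    intro n
    induction n with
    | zero => exact ⟨ψ, h2, h4, fun i hi => ⟨hi, Nat.zero_le _⟩⟩
    | succ n ih =>
      obtain ⟨χ, h5, h6, h7⟩ := ih
      refine ⟨.allS n χ, .allS n h5, h6, fun i hi => ?_⟩
      have h8 := h7 i hi.1
      have h9 : i ≠ n := hi.2
      exact ⟨h8.1, by omega⟩
  obtain ⟨χ, h6, h7, h8⟩ := h5 (B + 1)
  refine ⟨χ, h6, h7, Set.eq_empty_iff_forall_notMem.mpr fun i hi => ?_⟩
  have h9 := h8 i hi
  have h10 := hB h9.1
  omega

theorem extends_of_subset {T : Set Fm} (hT : ∀ φ ∈ T, φ.IsSentence) (h : AxSent ⊆ T) :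
    ExtendsSigmaAC0 T := by
  refine ⟨hT, fun φ hφ M hM => ?_⟩
  obtain ⟨ψ, h1, h2⟩ := exists_closure φ
  rw [← closure_holds h1]
  exact hM ψ (h ⟨h2, φ, hφ, h1⟩)

end Pool.Agent.R601.SelfRef
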